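import Pool.Agent.Helper87.Birkhoff

set_option autoImplicit false

open Topology Filter Set
open scoped Pointwise

namespace Pool.Agent.Results.MP_eb0bda_gt.DiscreteInn

open Pool.Agent.Helper87

universe u v

/-- Embedding of a (discrete) additive commutative group into a compact Hausdorff group. -/
noncomputable def bohrEmb (A : Type u) [AddCommGroup A] :
    A →+ ((A →+ AddCircle (1 : ℝ)) → AddCircle (1 : ℝ)) where
  toFun a := fun χ => χ a
  map_zero' := by funext χ; simp
  map_add' a b := by funext χ; simp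

theorem bohrEmb_injective (A : Type u) [AddCommGroup A] : Function.Injective (bohrEmb A) := by
  rw [injective_iff_map_eq_zero]
  intro a ha
  by_contra hne
  obtain ⟨c, hc⟩ := CharacterModule.exists_character_apply_ne_zero_of_ne_zero hne
  let j : AddCircle (1 : ℚ) →+ AddCircle (1 : ℝ) :=
    QuotientAddGroup.map _ _ ((Rat.castHom ℝ).toAddMonoidHom) (by
      intro x hx
      obtain ⟨n, rfl⟩ := AddSubgroup.mem_zmultiples_iff.mp hx
      simp only [AddSubgroup.mem_comap]
      refine AddSubgroup.mem_zmultiples_iff.mpr ⟨n, by simp⟩)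
  have hj : Function.Injective j := by
    rw [injective_iff_map_eq_zero]
    intro x hx
    induction x using QuotientAddGroup.induction_on with
    | H q =>
      have h1 : ((q : ℝ) : AddCircle (1 : ℝ)) = 0 := hx
      rw [AddCircle.coe_eq_zero_iff] at h1
      obtain ⟨n, hn⟩ := h1
      have : (n : ℚ) = q := by
        have : ((n : ℚ) : ℝ) = (q : ℝ) := by simpa using hn
        exact_mod_cast this
      rw [← this]
      exact (AddCircle.coe_eq_zero_iff (1 : ℚ)).mpr ⟨n, by simp⟩
  have h2 : bohrEmb A a (j.comp c) = 0 := by rw [ha]; rfl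
  apply hc
  apply hj
  rw [map_zero]
  exact h2

/-- Key lemma: let `H` be a discrete minimal group (non-topologizable group), `A` a subgroup all of
whose elements commute. Then the centraliser in `A` of some finite set is finite. -/
theorem exists_finite_centralizer {H : Type u} [Group H]
    (hmin : IsMinimalGroupTopology (⊥ : TopologicalSpace H))
    (A : Subgroup H) (hA : ∀ a ∈ A, ∀ b ∈ A, a * b = b * a) :
    ∃ D : Set H, D.Finite ∧ {a | a ∈ A ∧ ∀ d ∈ D, a * d = d * a}.Finite := by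
  classical
  let _ : CommGroup A := { (inferInstance : Group A) with
    mul_comm := fun a b => Subtype.ext (hA a a.2 b b.2) }
  let X := (Additive A →+ AddCircle (1 : ℝ)) → AddCircle (1 : ℝ)
  let b : Additive A →+ X := bohrEmb (Additive A)
  have hb : Function.Injective b := bohrEmb_injective _
  have : T2Space X := inferInstance
  have : CompactSpace X := inferInstance
  have : IsTopologicalAddGroup X := inferInstance
  let S : Set H → Set X → Set H := fun D O =>
    {a | ∃ h : a ∈ A, (∀ d ∈ D, a * d = d * a) ∧ b (Additive.ofMul ⟨a, h⟩) ∈ O}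
  let B : GroupFilterBasis H :=
    { sets := {W | ∃ D : Set H, ∃ O : Set X, D.Finite ∧ O ∈ 𝓝 (0 : X) ∧ W = S D O}
      nonempty := ⟨_, ∅, univ, finite_empty, univ_mem, rfl⟩
      inter_sets := by
        rintro _ _ ⟨D, O, hD, hO, rfl⟩ ⟨D', O', hD', hO', rfl⟩
        refine ⟨_, ⟨D ∪ D', O ∩ O', hD.union hD', inter_mem hO hO', rfl⟩, ?_⟩
        rintro a ⟨h, h1, h2⟩
        exact ⟨⟨h, fun d hd => h1 d (Or.inl hd), h2.1⟩, ⟨h, fun d hd => h1 d (Or.inr hd), h2.2⟩⟩
      one' := by
        rintro _ ⟨D, O, hD, hO, rfl⟩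
        refine ⟨A.one_mem, by simp, ?_⟩
        have : (Additive.ofMul (⟨1, A.one_mem⟩ : A)) = 0 := rfl
        rw [this, map_zero]
        exact mem_of_mem_nhds hO
      mul' := by
        rintro _ ⟨D, O, hD, hO, rfl⟩
        obtain ⟨V, hVo, hV1, hVU⟩ := exists_open_nhds_zero_add_subset hO
        refine ⟨_, ⟨D, V, hD, hVo.mem_nhds hV1, rfl⟩, ?_⟩
        rintro _ ⟨x, ⟨hx, hx1, hx2⟩, y, ⟨hy, hy1, hy2⟩, rfl⟩
        refine ⟨A.mul_mem hx hy, ?_, ?_⟩
        · intro d hd
          show x * y * d = d * (x * y)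
          rw [mul_assoc, hy1 d hd, ← mul_assoc, hx1 d hd, mul_assoc]
        · have : (Additive.ofMul (⟨x * y, A.mul_mem hx hy⟩ : A)) =
            Additive.ofMul (⟨x, hx⟩ : A) + Additive.ofMul (⟨y, hy⟩ : A) := rfl
          show b (Additive.ofMul (⟨x * y, A.mul_mem hx hy⟩ : A)) ∈ O
          rw [this, map_add]
          exact hVU ⟨_, hx2, _, hy2, rfl⟩
      inv' := by
        rintro _ ⟨D, O, hD, hO, rfl⟩
        refine ⟨_, ⟨D, -O, hD, neg_mem_nhds_zero _ hO, rfl⟩, ?_⟩
        rintro x ⟨hx, hx1, hx2⟩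
        refine ⟨A.inv_mem hx, ?_, ?_⟩
        · intro d hd
          have := hx1 d hd
          show x⁻¹ * d = d * x⁻¹
          rw [inv_mul_eq_iff_eq_mul, ← mul_assoc, this, mul_assoc, mul_inv_cancel, mul_one]
        · have : (Additive.ofMul (⟨x⁻¹, A.inv_mem hx⟩ : A)) =
            - Additive.ofMul (⟨x, hx⟩ : A) := rfl
          show b (Additive.ofMul (⟨x⁻¹, A.inv_mem hx⟩ : A)) ∈ O
          rw [this, map_neg]
          exact hx2
      conj' := by
        rintro g _ ⟨D, O, hD, hO, rfl⟩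
        refine ⟨_, ⟨insert g D, O, hD.insert g, hO, rfl⟩, ?_⟩
        rintro x ⟨hx, hx1, hx2⟩
        have : g * x * g⁻¹ = x := by
          rw [← hx1 g (mem_insert _ _)]; group
        show g * x * g⁻¹ ∈ S D O
        rw [this]
        exact ⟨hx, fun d hd => hx1 d (mem_insert_of_mem _ hd), hx2⟩ }
  have hT2 : @T2Space H B.topology := by
    let := B.topology
    apply IsTopologicalGroup.t2Space_of_one_sep
    intro x hx
    by_cases hxA : x ∈ A
    · have hne : b (Additive.ofMul ⟨x, hxA⟩) ≠ 0 := by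
        intro h0
        apply hx
        have h1 : (Additive.ofMul (⟨x, hxA⟩ : A)) = 0 := hb (by rw [h0, map_zero])
        have h2 : (⟨x, hxA⟩ : A) = 1 := h1
        simpa using congrArg Subtype.val h2
      refine ⟨S ∅ {b (Additive.ofMul ⟨x, hxA⟩)}ᶜ,
        B.mem_nhds_one ⟨∅, _, finite_empty, ?_, rfl⟩, ?_⟩
      · exact isOpen_compl_singleton.mem_nhds (Ne.symm hne)
      · rintro ⟨h, -, h2⟩
        exact h2 rfl
    · exact ⟨S ∅ univ, B.mem_nhds_one ⟨∅, _, finite_empty, univ_mem, rfl⟩,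
        fun ⟨h, _⟩ => hxA h⟩
  have heq := hmin.2.2 B.topology B.isTopologicalGroup hT2 bot_le
  have h1 : ({1} : Set H) ∈ @nhds H B.topology 1 := by
    rw [heq]
    let _ : TopologicalSpace H := ⊥
    have : DiscreteTopology H := ⟨rfl⟩
    exact (isOpen_discrete _).mem_nhds rfl
  obtain ⟨W, ⟨D, O, hD, hO, rfl⟩, hW⟩ := B.nhds_one_hasBasis.mem_iff.mp h1
  refine ⟨D, hD, ?_⟩
  -- a neighbourhood `O'` with `-O' + O' ⊆ O`
  obtain ⟨O', hO', hOO⟩ : ∃ O' ∈ 𝓝 (0 : X), ∀ x ∈ O', ∀ y ∈ O', - x + y ∈ O := by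
    have hc : Tendsto (fun p : X × X => - p.1 + p.2) (𝓝 (0, 0)) (𝓝 (-0 + 0)) := by
      apply Continuous.tendsto; fun_prop
    rw [neg_zero, zero_add, nhds_prod_eq] at hc
    obtain ⟨U, hU, V, hV, hUV⟩ := mem_prod_iff.mp (hc hO)
    exact ⟨U ∩ V, inter_mem hU hV, fun x hx y hy =>
      hUV (show (x, y) ∈ U ×ˢ V from ⟨hx.1, hy.2⟩)⟩
  obtain ⟨t, ht⟩ := compact_covered_by_add_left_translates (G := X) (K := univ) (V := O')
    isCompact_univ ⟨0, mem_interior_iff_mem_nhds.mpr hO'⟩
  -- choose for every element of the centraliser a translate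
  have hch : ∀ a : H, (h : a ∈ A) → ∃ g ∈ t, g + b (Additive.ofMul ⟨a, h⟩) ∈ O' := by
    intro a h
    have := ht (mem_univ (b (Additive.ofMul ⟨a, h⟩)))
    simp only [mem_iUnion, mem_preimage] at this
    obtain ⟨g, hg, hg'⟩ := this
    exact ⟨g, hg, hg'⟩
  let f : H → X := fun a => if h : a ∈ A then (hch a h).choose else 0
  have hf : ∀ a (h : a ∈ A), f a ∈ t ∧ f a + b (Additive.ofMul ⟨a, h⟩) ∈ O' := by
    intro a h
    simp only [f, h, dite_true]
    exact (hch a h).choose_spec
  apply Set.Finite.of_finite_image (f := f)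
  · exact t.finite_toSet.subset (by
      rintro _ ⟨a, ⟨ha, -⟩, rfl⟩
      exact (hf a ha).1)
  · intro x hx y hy hxy
    obtain ⟨hxA, hx1⟩ := hx
    obtain ⟨hyA, hy1⟩ := hy
    have h3 := hOO _ (hf x hxA).2 _ (hf y hyA).2
    have h4 : -(f x + b (Additive.ofMul ⟨x, hxA⟩)) + (f y + b (Additive.ofMul ⟨y, hyA⟩)) =
        b (Additive.ofMul (⟨x⁻¹ * y, A.mul_mem (A.inv_mem hxA) hyA⟩ : A)) := by
      have : (Additive.ofMul (⟨x⁻¹ * y, A.mul_mem (A.inv_mem hxA) hyA⟩ : A)) =
          - Additive.ofMul (⟨x, hxA⟩ : A) + Additive.ofMul (⟨y, hyA⟩ : A) := rfl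
      rw [this, map_add, map_neg, hxy]
      abel
    rw [h4] at h3
    have h5 : x⁻¹ * y ∈ S D O := by
      refine ⟨A.mul_mem (A.inv_mem hxA) hyA, ?_, h3⟩
      intro d hd
      have hx' : x⁻¹ * d = d * x⁻¹ := by
        rw [inv_mul_eq_iff_eq_mul, ← mul_assoc, hx1 d hd, mul_assoc, mul_inv_cancel, mul_one]
      rw [mul_assoc, hy1 d hd, ← mul_assoc, hx', mul_assoc]
    have h6 : x⁻¹ * y = 1 := hW h5
    exact (inv_mul_eq_one.mp h6)

/-- If `G` is a locally compact group such that `Inn G` with the Birkhoff topology is discrete and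
minimal, then all powers of `Inn G` are minimal. -/
theorem result {G : Type u} [Group G] [TopologicalSpace G] [IsTopologicalGroup G] [T2Space G]
    [LocallyCompactSpace G] (hdisc : @DiscreteTopology (Inn G) (birkhoff G))
    (hmin : IsMinimalGroupTopology (birkhoff G)) (κ : Type v) :
    IsMinimalGroupTopology (@Pi.topologicalSpace κ (fun _ => Inn G) (fun _ => birkhoff G)) := by
  classical
  let q : G →* Inn G := (MulAut.conj : G →* MulAut G).rangeRestrict
  have hqs : Function.Surjective q := MonoidHom.rangeRestrict_surjective _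
  have hqa : ∀ x g : G, ((q x : Inn G) : MulAut G) g = x * g * x⁻¹ := fun x g => rfl
  have hqc : ∀ x : G, q x = 1 ↔ ∀ g, x * g = g * x := by
    intro x
    constructor
    · intro h g
      have := hqa x g
      rw [h] at this
      have h2 : g = x * g * x⁻¹ := this
      rw [eq_mul_inv_iff_mul_eq] at h2
      exact h2.symm
    · intro h
      apply Subtype.ext
      apply MulEquiv.ext
      intro g
      have := hqa x g
      rw [this, h g, mul_assoc, mul_inv_cancel, mul_one]
      rfl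
  -- a compact set whose pointwise stabiliser is trivial
  have h1 : ({1} : Set (Inn G)) ∈ @nhds (Inn G) (birkhoff G) 1 := by
    let := birkhoff G
    exact (isOpen_discrete _).mem_nhds rfl
  obtain ⟨⟨C, U⟩, ⟨hC, hU⟩, hCU⟩ := birkhoff_nhds_one.mem_iff.mp h1
  -- the centre is open
  have hopen : IsOpen (q ⁻¹' {1}) := by
    let := birkhoff G
    exact (isOpen_discrete ({1} : Set (Inn G))).preimage continuous_toInn
  -- finitely many elements suffice
  obtain ⟨F, hF⟩ : ∃ F : Finset G, ∀ x : G, (∀ f ∈ F, x * f = f * x) → q x = 1 := by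
    obtain ⟨t, ht⟩ := compact_covered_by_mul_left_translates (G := G) (K := C)
      (V := q ⁻¹' {1}) hC (by
        rw [hopen.interior_eq]; exact ⟨1, by simp⟩)
    refine ⟨t.image (fun g => g⁻¹), ?_⟩
    intro x hx
    have : q x ∈ birkhoffNhd C U := by
      have hxg : ∀ g ∈ C, x * g = g * x := by
        intro g hg
        obtain ⟨s, hs, hsg⟩ := mem_iUnion₂.mp (ht hg)
        have h2 : q (s * g) = 1 := hsg
        rw [hqc] at h2
        have h3 := hx s⁻¹ (Finset.mem_image_of_mem _ hs)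
        have h4 := h2 x
        calc x * g = x * s⁻¹ * (s * g) := by group
          _ = s⁻¹ * x * (s * g) := by rw [h3]
          _ = s⁻¹ * (x * (s * g)) := by rw [mul_assoc]
          _ = s⁻¹ * (s * g * x) := by rw [h4]
          _ = g * x := by group
      intro g hg
      have h6 : ((q x)⁻¹ : Inn G) = q x⁻¹ := by rw [map_inv]
      refine ⟨?_, ?_⟩
      · have : g * x * x⁻¹ * g⁻¹ = 1 := by group
        rw [hqa, hxg g hg, this]
        exact mem_of_mem_nhds hU
      · rw [h6, hqa, inv_inv]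
        have : x⁻¹ * g * x * g⁻¹ = 1 := by
          rw [mul_assoc x⁻¹ g x, ← hxg g hg]; group
        rw [this]
        exact mem_of_mem_nhds hU
    exact hCU this
  -- the centraliser of `q F` is commutative
  let A : Subgroup (Inn G) := Subgroup.centralizer (q '' (F : Set G))
  have hA : ∀ a ∈ A, ∀ b ∈ A, a * b = b * a := by
    intro a ha b hb
    obtain ⟨x, rfl⟩ := hqs a
    obtain ⟨y, rfl⟩ := hqs b
    have hcen : ∀ x : G, q x ∈ A → ∀ f ∈ F, ∀ g : G, (x * f * x⁻¹ * f⁻¹) * g =
        g * (x * f * x⁻¹ * f⁻¹) := by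
      intro x hx f hf
      rw [← hqc]
      have := Subgroup.mem_centralizer_iff.mp hx (q f) ⟨f, hf, rfl⟩
      rw [map_mul, map_mul, map_mul, map_inv, map_inv, ← this]
      group
    have hx := hcen x ha
    have hy := hcen y hb
    have h7 : q (y⁻¹ * x⁻¹ * y * x) = 1 := by
      apply hF
      intro f hf
      -- both `x * y` and `y * x` conjugate `f` to the same element
      have e1 : y * x * f * (y * x)⁻¹ = x * y * f * (x * y)⁻¹ := by
        have a1 : y * x * f * (y * x)⁻¹ = y * (x * f * x⁻¹ * f⁻¹) * f * y⁻¹ := by group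
        have a2 : x * y * f * (x * y)⁻¹ = x * (y * f * y⁻¹ * f⁻¹) * f * x⁻¹ := by group
        rw [a1, a2, ← hx f hf y, ← hy f hf x]
        have a3 : x * f * x⁻¹ * f⁻¹ * y * f * y⁻¹ =
          (x * f * x⁻¹ * f⁻¹) * (y * f * y⁻¹ * f⁻¹) * f := by group
        have a4 : y * f * y⁻¹ * f⁻¹ * x * f * x⁻¹ =
          (y * f * y⁻¹ * f⁻¹) * (x * f * x⁻¹ * f⁻¹) * f := by group
        rw [a3, a4, hx f hf]
      have e2 : y⁻¹ * x⁻¹ * y * x * f * (y⁻¹ * x⁻¹ * y * x)⁻¹ =
          (x * y)⁻¹ * (y * x * f * (y * x)⁻¹) * (x * y) := by group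
      have e3 : y⁻¹ * x⁻¹ * y * x * f * (y⁻¹ * x⁻¹ * y * x)⁻¹ = f := by
        rw [e2, e1]; group
      rw [mul_inv_eq_iff_eq_mul] at e3
      exact e3
    rw [map_mul, map_mul, map_mul, map_inv, map_inv] at h7
    have h8 : q y * q x = q x * q y * ((q y)⁻¹ * (q x)⁻¹ * q y * q x) := by group
    rw [h8, h7, mul_one]
  have hbot : birkhoff G = ⊥ := hdisc.eq_bot
  have hmin' : IsMinimalGroupTopology (⊥ : TopologicalSpace (Inn G)) := hbot ▸ hmin
  obtain ⟨D, hD, hfin⟩ := exists_finite_centralizer hmin' A hA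
  let := birkhoff G
  refine powers_minimal_of_asympCent hmin (D ∪ q '' (F : Set G)) {1}
    {a | a ∈ A ∧ ∀ d ∈ D, a * d = d * a} ?_ ?_ ?_ ?_ κ
  · exact (hD.union (F.finite_toSet.image q)).isCompact
  · exact (isOpen_discrete _).mem_nhds rfl
  · exact hfin.isCompact
  · intro x hx
    have hx' : ∀ d ∈ D ∪ q '' (F : Set G), x * d = d * x := by
      intro d hd
      have := (hx d hd).1
      rw [mem_singleton_iff, mul_inv_eq_one, mul_inv_eq_iff_eq_mul] at this
      exact this
    refine ⟨Subgroup.mem_centralizer_iff.mpr fun d hd => (hx' d (Or.inr hd)).symm,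
      fun d hd => hx' d (Or.inl hd)⟩

end Pool.Agent.Results.MP_eb0bda_gt.DiscreteInn
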