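import Pool.Agent.Helper87.Birkhoff
import Pool.Agent.Helper87.SecondCountable

/-!
# Powers of `Inn G` in the second countable case
-/

set_option autoImplicit false

open Topology Filter Set
open scoped Pointwise

namespace Pool.Agent.Results.MP_eb0bda_gt.SecondCountable

open Pool.Agent.Helper87

universe u v

/-- The Birkhoff topology of a second countable locally compact group has a countable
neighbourhood basis at the identity. -/
theorem birkhoff_countablyGenerated {G : Type u} [Group G] [TopologicalSpace G]
    [IsTopologicalGroup G] [LocallyCompactSpace G] [SigmaCompactSpace G]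
    [(𝓝 (1 : G)).IsCountablyGenerated] :
    (@nhds (Inn G) (birkhoff G) 1).IsCountablyGenerated := by
  obtain ⟨B, hB⟩ := (𝓝 (1 : G)).exists_antitone_basis
  let E := CompactExhaustion.choice G
  have hb : (@nhds (Inn G) (birkhoff G) 1).HasBasis (fun _ : ℕ × ℕ => True)
      (fun p => birkhoffNhd (E p.1) (B p.2)) := by
    constructor
    intro t
    rw [birkhoff_nhds_one.mem_iff]
    constructor
    · rintro ⟨⟨C, U⟩, ⟨hC, hU⟩, ht⟩
      obtain ⟨n, hn⟩ := E.exists_superset_of_isCompact hC
      obtain ⟨m, -, hm⟩ := hB.1.mem_iff.mp hU
      refine ⟨(n, m), trivial, Subset.trans ?_ ht⟩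
      intro f hf g hg
      exact ⟨hm (hf g (hn hg)).1, hm (hf g (hn hg)).2⟩
    · rintro ⟨⟨n, m⟩, -, ht⟩
      exact ⟨(E n, B m), ⟨E.isCompact n, hB.1.mem_of_mem trivial⟩, ht⟩
  exact hb.isCountablyGenerated

/-- Let `G` be a locally compact Hausdorff group such that `G` or `Inn G` (with the Birkhoff
topology) is second countable. If `Inn G` is locally compact and minimal, then all powers of
`Inn G` are minimal. -/
theorem result {G : Type u} [Group G] [TopologicalSpace G] [IsTopologicalGroup G] [T2Space G]
    [LocallyCompactSpace G]
    (hsc : SecondCountableTopology G ∨ @SecondCountableTopology (Inn G) (birkhoff G))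
    (hlc : @LocallyCompactSpace (Inn G) (birkhoff G))
    (hmin : IsMinimalGroupTopology (birkhoff G)) (κ : Type v) :
    IsMinimalGroupTopology (@Pi.topologicalSpace κ (fun _ => Inn G) (fun _ => birkhoff G)) := by
  let := birkhoff G
  have h1 : SigmaCompactSpace (Inn G) ∧ (𝓝 (1 : Inn G)).IsCountablyGenerated := by
    rcases hsc with h | h
    · constructor
      · have hs : IsSigmaCompact (range ((MulAut.conj : G →* MulAut G).rangeRestrict)) :=
          isSigmaCompact_range continuous_toInn
        rw [(MonoidHom.rangeRestrict_surjective _).range_eq] at hs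
        exact isSigmaCompact_univ_iff.mp hs
      · exact birkhoff_countablyGenerated
    · exact ⟨inferInstance, inferInstance⟩
  obtain ⟨h2, h3⟩ := h1
  obtain ⟨D, V, K, hD, hV, hK, hDV⟩ := exists_asympCent_compact hmin
  exact powers_minimal_of_asympCent hmin D V K hD hV hK hDV κ

end Pool.Agent.Results.MP_eb0bda_gt.SecondCountable
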